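import Pool.Agent.Q240.KS.Stm2

set_option autoImplicit false

namespace Pool.Agent.Q225.KS

open Finset Pool.Agent.Q240.KS

/-- the main case: `a = m al` in `[0.31, 0.49]` -/
lemma caseA {a K κ lam e : ℝ} (ha1 : 0.31 ≤ a) (ha2 : a ≤ 0.49) (hK : K ≤ 1.0065 * (a * κ))
    (hlam : lam ≤ 1 / 2 + e) (he0 : 0 < e) (he1 : e ≤ 0.00001) (he2 : 1000 * e ≤ κ) :
    2 * K + e ≤ max κ (2 * κ - 1 / 8) ∧
      (lam - a + 2 * K + e ≤ max κ (2 * κ - 1 / 8) ∨
        lam - 2 * a + 6 * K + e ≤ max κ (2 * κ - 1 / 8)) := by
  have hκ0 : 0 < κ := by linarith
  have hm1 : κ ≤ max κ (2 * κ - 1 / 8) := le_max_left _ _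
  have hm2 : 2 * κ - 1 / 8 ≤ max κ (2 * κ - 1 / 8) := le_max_right _ _
  constructor
  · have : a * κ ≤ 0.49 * κ := mul_le_mul_of_nonneg_right ha2 hκ0.le
    refine le_trans ?_ hm1
    norm_num at *
    linarith
  · have H1 : (6.039 * a - 1) * κ ≤ 2 * a - 0.5 - 2 * e →
        lam - 2 * a + 6 * K + e ≤ max κ (2 * κ - 1 / 8) := by
      intro h
      refine le_trans ?_ hm1
      norm_num at *
      nlinarith
    have H2 : (6.039 * a - 2) * κ ≤ 2 * a - 0.625 - 2 * e →
        lam - 2 * a + 6 * K + e ≤ max κ (2 * κ - 1 / 8) := by
      intro h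
      refine le_trans ?_ hm2
      norm_num at *
      nlinarith
    have M2 : 0.625 - a + 2 * e ≤ (2 - 2.013 * a) * κ →
        lam - a + 2 * K + e ≤ max κ (2 * κ - 1 / 8) := by
      intro h
      refine le_trans ?_ hm2
      norm_num at *
      nlinarith
    rcases le_total a 0.3311 with h3 | h3
    · rcases le_total κ 0.13 with h4 | h4
      · right
        apply H1
        have : 0 ≤ (6.039 * a - 1) * (0.13 - κ) := mul_nonneg (by norm_num at *; linarith) (by linarith)
        norm_num at *
        nlinarith
      · right
        apply H2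
        have : 0 ≤ (2 - 6.039 * a) * (κ - 0.13) := mul_nonneg (by norm_num at *; linarith) (by linarith)
        norm_num at *
        nlinarith
    · rcases le_total a 0.38 with h5 | h5
      · rcases le_total κ 0.16 with h4 | h4
        · right
          apply H1
          have : 0 ≤ (6.039 * a - 1) * (0.16 - κ) :=
            mul_nonneg (by norm_num at *; linarith) (by linarith)
          norm_num at *
          nlinarith
        · rcases le_total κ 0.25 with h6 | h6
          · right
            apply H2
            rcases le_total (6.039 * a - 2) 0 with h7 | h7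
            · have : 0 ≤ (2 - 6.039 * a) * (κ - 0.16) :=
                mul_nonneg (by linarith) (by linarith)
              norm_num at *
              nlinarith
            · have : 0 ≤ (6.039 * a - 2) * (0.25 - κ) :=
                mul_nonneg (by linarith) (by linarith)
              norm_num at *
              nlinarith
          · left
            apply M2
            have : 0 ≤ (2 - 2.013 * a) * (κ - 0.25) :=
              mul_nonneg (by norm_num at *; linarith) (by linarith)
            norm_num at *
            nlinarith
      · rcases le_total κ 0.2 with h4 | h4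
        · right
          apply H1
          have : 0 ≤ (6.039 * a - 1) * (0.2 - κ) :=
            mul_nonneg (by norm_num at *; linarith) (by linarith)
          norm_num at *
          nlinarith
        · left
          apply M2
          have : 0 ≤ (2 - 2.013 * a) * (κ - 0.2) :=
            mul_nonneg (by norm_num at *; linarith) (by linarith)
          norm_num at *
          nlinarith

theorem opt1 : S_OPT1 := by
  intro ε₀ hε hε1 al lam ki ka hal hki0 hki hka hlam0 hlam halt
  set e := ε₀ / 1000 with he
  have he0 : 0 < e := by positivity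
  have he1 : e ≤ 0.00001 := by rw [he]; norm_num; linarith
  have he2 : 1000 * e ≤ ka := by rw [he]; linarith
  have hka0 : 0 < ka := by linarith
  have hR : max ka (2 * ka + 3 / 8 - 1 / 2) = max ka (2 * ka - 1 / 8) := by
    congr 1
    ring
  rw [hR]
  -- how to use an `m`
  have use : ∀ m : ℕ, 1 ≤ m → m ≤ 2000 →
      2 * ((m : ℝ) * ki) + e ≤ max ka (2 * ka - 1 / 8) →
      (lam - m * al + 2 * ((m : ℝ) * ki) + e ≤ max ka (2 * ka - 1 / 8) ∨
        lam - 2 * ((m : ℝ) * al) + 6 * ((m : ℝ) * ki) + e ≤ max ka (2 * ka - 1 / 8)) →
      ∃ m : ℕ, 1 ≤ m ∧ m ≤ 2000 ∧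
        max (2 * m * ki) (min (lam - m * al + 2 * m * ki) (lam - 2 * m * al + 6 * m * ki)) + e ≤
          max ka (2 * ka - 1 / 8) := by
    intro m hm1 hm2 h1 h2
    refine ⟨m, hm1, hm2, ?_⟩
    rw [← le_sub_iff_add_le]
    apply max_le
    · rw [le_sub_iff_add_le]
      have : 2 * (m : ℝ) * ki = 2 * ((m : ℝ) * ki) := by ring
      rw [this]
      exact h1
    · rcases h2 with h2 | h2
      · refine (min_le_left _ _).trans ?_
        rw [le_sub_iff_add_le]
        have : 2 * (m : ℝ) * ki = 2 * ((m : ℝ) * ki) := by ring
        rw [this]
        exact h2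
      · refine (min_le_right _ _).trans ?_
        rw [le_sub_iff_add_le]
        have e1 : 2 * (m : ℝ) * al = 2 * ((m : ℝ) * al) := by ring
        have e2 : 6 * (m : ℝ) * ki = 6 * ((m : ℝ) * ki) := by ring
        rw [e1, e2]
        exact h2
  have useA : ∀ m : ℕ, 1 ≤ m → m ≤ 2000 → 0.31 ≤ (m : ℝ) * al → (m : ℝ) * al ≤ 0.49 →
      ∃ m : ℕ, 1 ≤ m ∧ m ≤ 2000 ∧
        max (2 * m * ki) (min (lam - m * al + 2 * m * ki) (lam - 2 * m * al + 6 * m * ki)) + e ≤
          max ka (2 * ka - 1 / 8) := by
    intro m hm1 hm2 h1 h2
    have hK : (m : ℝ) * ki ≤ 1.0065 * (((m : ℝ) * al) * ka) := by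
      have := mul_le_mul_of_nonneg_left hki (Nat.cast_nonneg (α := ℝ) m)
      nlinarith
    have h3 := caseA h1 h2 hK hlam he0 he1 he2
    exact use m hm1 hm2 h3.1 h3.2
  rcases le_total al 0.18 with h1 | h1
  · right
    have hal0 : 0 < al := by linarith
    set m := ⌈0.31 / al⌉₊ with hm
    have hm1 : 0.31 / al ≤ m := Nat.le_ceil _
    have hm2 : (m : ℝ) < 0.31 / al + 1 := Nat.ceil_lt_add_one (by positivity)
    have hm3 : 0.31 ≤ (m : ℝ) * al := by
      rwa [div_le_iff₀ hal0] at hm1
    have hm4 : (m : ℝ) * al ≤ 0.49 := by
      have h5 : (m : ℝ) * al ≤ (0.31 / al + 1) * al := mul_le_mul_of_nonneg_right hm2.le hal0.le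
      have h6 : (0.31 / al + 1) * al = 0.31 + al := by field_simp
      rw [h6] at h5
      norm_num at *
      linarith
    have hmpos : 1 ≤ m := by
      rcases Nat.eq_zero_or_pos m with h0 | h0
      · exfalso
        rw [h0, Nat.cast_zero, zero_mul] at hm3
        norm_num at hm3
      · exact h0
    have hmle : m ≤ 2000 := by
      have h5 : (0.31 : ℝ) / al ≤ 620 := by
        rw [div_le_iff₀ hal0]
        norm_num
        linarith
      have h6 : (m : ℝ) ≤ 2000 := by linarith
      exact_mod_cast h6
    exact useA m hmpos hmle hm3 hm4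
  · rcases le_total al 0.245 with h2 | h2
    · right
      exact useA 2 (by norm_num) (by norm_num) (by push_cast; norm_num at *; linarith)
        (by push_cast; norm_num at *; linarith)
    · have halt' := halt.resolve_left (by norm_num at *; linarith)
      obtain ⟨a1, a2, a3⟩ := halt'
      rcases lt_or_ge al 0.31 with h3 | h3
      · right
        have hm2 : 2 * ka - 1 / 8 ≤ max ka (2 * ka - 1 / 8) := le_max_right _ _
        -- the quadratic inequality
        have hq : 0.1351 ≤ (2 - 4.026 * al) * ka := by
          have e1 : al / 2 - 0.0834 ≤ 1.0065 * ka * al := by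
            norm_num at *
            linarith
          have e2 : 0 < 2 - 4.026 * al := by norm_num at *; linarith
          have e3 : (2 - 4.026 * al) * (al / 2 - 0.0834) ≤ (2 - 4.026 * al) * (1.0065 * ka * al) :=
            mul_le_mul_of_nonneg_left e1 e2.le
          have e4 : 0 ≤ (al - 0.245) * (0.31 - al) := mul_nonneg (by linarith) (by linarith)
          have e5 : 0.1351 * 1.0065 * al ≤ (2 - 4.026 * al) * (al / 2 - 0.0834) := by
            norm_num at *
            nlinarith
          have hal0 : 0 < al := by linarith
          by_contra hcon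
          push Not at hcon
          have e6 : (2 - 4.026 * al) * ka * (1.0065 * al) < 0.1351 * (1.0065 * al) :=
            mul_lt_mul_of_pos_right hcon (by positivity)
          norm_num at *
          nlinarith
        have h4 : (2 : ℝ) * ki ≤ 2.013 * (ka * al) := by
          norm_num at *
          linarith
        apply use 2 (by norm_num) (by norm_num)
        · refine le_trans ?_ hm2
          push_cast
          norm_num at *
          nlinarith
        · left
          refine le_trans ?_ hm2
          push_cast
          norm_num at *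
          nlinarith
      · rcases le_total al 0.49 with h4 | h4
        · right
          exact useA 1 (by norm_num) (by norm_num) (by push_cast; linarith)
            (by push_cast; linarith)
        · left
          refine le_trans ?_ (le_max_right _ _)
          have e1 : 0.2399 ≤ 1.0065 * ka * al := by
            norm_num at *
            linarith
          have e2 : al ≤ 0.50003 := by
            norm_num at *
            linarith
          have e3 : ka * al ≤ ka * 0.50003 := mul_le_mul_of_nonneg_left e2 hka0.le
          norm_num at *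
          nlinarith

end Pool.Agent.Q225.KS
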